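import Pool.Agent.MNT.StmtsT

/-!
# Squad MNT, row NMO: the weight of the odd clusters is positive
-/

set_option autoImplicit false

namespace Pool.Agent.MNT.H79

noncomputable section

theorem w1_one (g b : ℕ) : w1 g 1 b = ((g : ℝ) - 1) * b + gam g * ((b : ℝ) * (b - 1) / 2) := by
  unfold w1 w0
  push_cast
  ring

theorem w1_top (g b : ℕ) : w1 g (2 * g + 1) b = ((g : ℝ) - 1) * (4 * g + 8 - b) +
    gam g * ((4 * (g : ℝ) + 8 - b) * (4 * g + 7 - b) / 2) := by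
  unfold w1 w0 gam
  have hq : (4 * (g : ℝ) + 7) ≠ 0 := by positivity
  push_cast
  field_simp
  ring

/-- the discriminant -/
def Dp (g : ℝ) : ℝ := 188 * g ^ 4 + 516 * g ^ 3 - 169 * g ^ 2 - 732 * g + 188

theorem w1_mid (g a b : ℕ) : 2 * (4 * (g : ℝ) ^ 2 + 2) * (4 * g + 7) * w1 g a b =
    ((4 * (g : ℝ) ^ 2 + 2) * b - ((4 * g + 7) * (2 * g + 1) * a - (10 * (g : ℝ) ^ 2 + 21 * g - 1))) ^ 2
      + ((4 * (g : ℝ) + 7) * (12 * (g : ℝ) ^ 2 + 24 * g - 9) * ((a - 3) * (2 * g - 1 - a)) + Dp g) := by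
  unfold w1 w0 gam Dp
  have hq : (4 * (g : ℝ) + 7) ≠ 0 := by positivity
  field_simp
  ring

theorem Dp_pos {g : ℝ} (hg : 2 ≤ g) : 0 < Dp g := by
  unfold Dp
  have e : (188 * g ^ 4 + 516 * g ^ 3 - 169 * g ^ 2 - 732 * g + 188 : ℝ) =
    188 * (g - 2) ^ 4 + 2020 * (g - 2) ^ 3 + 7439 * (g - 2) ^ 2 + 10800 * (g - 2) + 5184 := by ring
  have h : 0 ≤ g - 2 := by linarith
  rw [e]
  positivity

theorem nmo : NmoStmt := by
  intro g hg
  have hg' : (2 : ℝ) ≤ g := by exact_mod_cast hg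
  have hgam : 0 ≤ gam g := by unfold gam; positivity
  have hD := Dp_pos hg'
  have hc : 0 < 2 * (4 * (g : ℝ) ^ 2 + 2) * (4 * g + 7) := by positivity
  refine ⟨min 1 (Dp g / (2 * (4 * (g : ℝ) ^ 2 + 2) * (4 * g + 7))),
    lt_min one_pos (div_pos hD hc), ?_⟩
  intro a b ha hag hb hab htop
  by_cases h1 : a = 1
  · subst h1
    refine le_trans (min_le_left _ _) ?_
    rw [w1_one]
    have hb1 : (1 : ℝ) ≤ b := by
      have : 1 ≤ b := by omega
      exact_mod_cast this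
    have h2 : (1 : ℝ) ≤ ((g : ℝ) - 1) * b := by nlinarith
    have h3 : 0 ≤ gam g * ((b : ℝ) * (b - 1) / 2) := by
      have : 0 ≤ (b : ℝ) * (b - 1) := mul_nonneg (by linarith) (by linarith)
      positivity
    linarith
  by_cases h2 : a = 2 * g + 1
  · subst h2
    refine le_trans (min_le_left _ _) ?_
    rw [w1_top]
    have hb1 : (1 : ℝ) ≤ 4 * (g : ℝ) + 8 - b := by
      have h3 : b + 1 ≤ 4 * g + 8 := htop rfl
      have h4 : (b : ℝ) + 1 ≤ 4 * g + 8 := by exact_mod_cast h3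
      linarith
    have h3 : (1 : ℝ) ≤ ((g : ℝ) - 1) * (4 * g + 8 - b) := by nlinarith
    have h4 : 0 ≤ gam g * ((4 * (g : ℝ) + 8 - b) * (4 * g + 7 - b) / 2) := by
      have : 0 ≤ (4 * (g : ℝ) + 8 - b) * (4 * g + 7 - b) := mul_nonneg (by linarith) (by linarith)
      positivity
    linarith
  · obtain ⟨j, hj⟩ := ha
    have h3 : 3 ≤ a := by omega
    have h4 : a + 1 ≤ 2 * g := by omega
    have h3' : (3 : ℝ) ≤ a := by exact_mod_cast h3
    have h4' : (a : ℝ) + 1 ≤ 2 * g := by exact_mod_cast h4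
    refine le_trans (min_le_right _ _) ?_
    rw [div_le_iff₀ hc]
    have e := w1_mid g a b
    have h5 : 0 ≤ (4 * (g : ℝ) + 7) * (12 * (g : ℝ) ^ 2 + 24 * g - 9) *
        (((a : ℝ) - 3) * (2 * g - 1 - a)) := by
      have h6 : 0 ≤ 12 * (g : ℝ) ^ 2 + 24 * g - 9 := by nlinarith
      have h7 : 0 ≤ ((a : ℝ) - 3) * (2 * g - 1 - a) := mul_nonneg (by linarith) (by linarith)
      have h8 : 0 ≤ 4 * (g : ℝ) + 7 := by positivity
      exact mul_nonneg (mul_nonneg h8 h6) h7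
    have h9 := sq_nonneg ((4 * (g : ℝ) ^ 2 + 2) * b -
      ((4 * g + 7) * (2 * g + 1) * a - (10 * (g : ℝ) ^ 2 + 21 * g - 1)))
    rw [mul_comm]
    linarith

end

end Pool.Agent.MNT.H79
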